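import Pool.Agent.Helper45.AM.GoalsA
import Pool.Agent.Helper15.AM.GoalsG
import Pool.Agent.Helper15.RA.GoalsH

/-!
# Project AM (MP_cc6379_al), packet AM-A1: relative P1.
-/

set_option autoImplicit false

open LaurentPolynomial Pool.Agent.Helper15.RA Pool.Agent.Helper45.AM

noncomputable section

namespace Pool.Agent.Helper41.AM

variable {S W H : Type} [Group W] [Ring H] [Algebra ℤ[T;T⁻¹] H]

/-- expansion in the basis `c` -/
theorem exp_c (X : Base S W H) (Z : H) : (X.b.repr Z).sum (fun k p => p • X.D.c k) = Z := by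
  have h := X.b.linearCombination_repr Z
  rw [Finsupp.linearCombination_apply] at h
  simpa only [X.hb] using h

theorem repr_c (X : Base S W H) (k : W) : X.b.repr (X.D.c k) = Finsupp.single k 1 := by
  rw [← X.hb, Module.Basis.repr_self]

theorem coeff_sum {ι : Type*} (s : Finset ι) (f : ι → ℤ[T;T⁻¹]) (n : ℤ) :
    (∑ i ∈ s, f i).coeff n = ∑ i ∈ s, (f i).coeff n := by
  classical
  induction s using Finset.induction_on with
  | empty => simp
  | insert i s hi ih =>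
    rw [Finset.sum_insert hi, Finset.sum_insert hi, AddMonoidAlgebra.coeff_add, Finsupp.add_apply, ih]

section pr

variable {X : Base S W H} {P : Set S}

/-- the projection as a linear map -/
def prL (hadd : ∀ Y Z : H, X.pr P (Y + Z) = X.pr P Y + X.pr P Z)
    (hsmul : ∀ (p : ℤ[T;T⁻¹]) (Z : H), X.pr P (p • Z) = p • X.pr P Z) : H →ₗ[ℤ[T;T⁻¹]] H where
  toFun := X.pr P
  map_add' := hadd
  map_smul' := hsmul

end pr

/-- (F0) the coordinates of `pr P (c_w)` -/
theorem pr_c (hGA : Pool.Agent.Helper15.AM.G_PA) (hH1 : H_1) (hS : A_S) (hK : A_K) (X : Base S W H) (P : Set S)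
    {x g : W} (hx : XR X.cs P x) (hg : g ∈ par X.cs P) (k : W) :
    (X.b.repr (X.pr P (X.D.c (x * g))) k ≠ 0 → k ∈ par X.cs P ∧ X.leL P k g) ∧
      DegLE 0 (X.b.repr (X.pr P (X.D.c (x * g))) k) := by
  classical
  obtain ⟨-, -, -, hS4, -, -, -, hadd, hsmul, hid, hS11, hS12, hS13⟩ := hS S W H X P
  obtain ⟨-, -, hlen⟩ := hGA S W X.M X.cs P
  obtain ⟨ht1, -⟩ := hH1 S W H X.M X.cs X.L X.D.toHecke1.toHecke0
  obtain ⟨-, -, -, p, hp1, hp2, hp3⟩ := hK S W H X P x g hx hg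
  let Φ : H → Prop := fun Y => ∀ k, (X.b.repr Y k ≠ 0 → k ∈ par X.cs P ∧ X.leL P k g) ∧ DegLE 0 (X.b.repr Y k)
  have hΦ0 : Φ 0 := by
    intro k
    rw [map_zero, Finsupp.zero_apply]
    exact ⟨fun h => absurd rfl h, DegLE.zero 0⟩
  have hΦadd : ∀ Y Z, Φ Y → Φ Z → Φ (Y + Z) := by
    intro Y Z hY hZ k
    rw [map_add, Finsupp.add_apply]
    refine ⟨fun h => ?_, (hY k).2.add (hZ k).2⟩
    by_cases h1 : X.b.repr Y k = 0
    · exact (hZ k).1 fun h2 => h (by rw [h1, h2, add_zero])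
    · exact (hY k).1 h1
  have hΦsmul : ∀ (q : ℤ[T;T⁻¹]) Y, DegLE 0 q → Φ Y → Φ (q • Y) := by
    intro q Y hq hY k
    rw [map_smul, Finsupp.smul_apply, smul_eq_mul]
    exact ⟨fun h => (hY k).1 (right_ne_zero_of_mul h), by simpa using hq.mul (hY k).2⟩
  have hΦc : ∀ g' ∈ par X.cs P, X.leL P g' g → Φ (X.D.c g') := by
    intro g' hg' hle k
    rw [repr_c, Finsupp.single_apply]
    split_ifs with h
    · subst h
      exact ⟨fun _ => ⟨hg', hle⟩, DegLE.one le_rfl⟩
    · exact ⟨fun h => absurd rfl h, DegLE.zero 0⟩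
  have hΦsum : ∀ (s : Finset (W × W)) (f : W × W → H), (∀ r ∈ s, Φ (f r)) → Φ (∑ r ∈ s, f r) := by
    intro s f
    induction s using Finset.induction_on with
    | empty => intro _; simpa using hΦ0
    | insert i s hi ih =>
      intro h
      rw [Finset.sum_insert hi]
      exact hΦadd _ _ (h i (Finset.mem_insert_self i s)) (ih fun j hj => h j (Finset.mem_insert_of_mem hj))
  have hpr : ∀ x' g', XR X.cs P x' → g' ∈ par X.cs P → X.leL P g' g → Φ (X.pr P (X.D.t x' * X.D.c g')) := by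
    intro x' g' hx' hg' hle
    rw [(hS13 (X.D.t x') (X.D.c g') (hS4 g' hg')).1]
    by_cases h : x' ∈ par X.cs P
    · have h1 : x' = 1 := by
        have h2 := hlen x' hx' x'⁻¹ (inv_mem h)
        rw [mul_inv_cancel, X.cs.length_one] at h2
        exact X.cs.length_eq_zero_iff.1 (by omega)
      have h2 : X.pr P (X.D.t x') = X.D.t x' := by
        refine hid _ fun z hz => ?_
        rw [Module.Basis.repr_self, Finsupp.single_apply] at hz
        split_ifs at hz with h3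
        · exact h3 ▸ h
        · exact absurd rfl hz
      rw [h2, h1, ht1, one_mul]
      exact hΦc g' hg' hle
    · have h2 : X.pr P (X.D.t x') = 0 := by
        have : X.D.t.repr (X.pr P (X.D.t x')) = 0 := by
          ext1 z
          by_contra hz
          obtain ⟨h3, h4⟩ := hS11 (X.D.t x') z hz
          have h5 : X.D.t.repr (X.D.t x') z ≠ 0 := by
            rw [← h4]; exact hz
          rw [Module.Basis.repr_self, Finsupp.single_apply] at h5
          split_ifs at h5 with h6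
          · exact h (h6 ▸ h3)
          · exact h5 rfl
        exact (LinearEquiv.map_eq_zero_iff _).1 this
      rw [h2, zero_mul]
      exact hΦ0
  have hmain : Φ (X.pr P (X.D.c (x * g))) := by
    rw [hp3, hadd]
    refine hΦadd _ _ (hpr x g hx hg Relation.ReflTransGen.refl) ?_
    have h1 : X.pr P (p.sum fun r q => q • (X.D.t r.1 * X.D.c r.2)) =
        ∑ r ∈ p.support, p r • X.pr P (X.D.t r.1 * X.D.c r.2) := by
      rw [Finsupp.sum]
      have := map_sum (prL hadd hsmul) (fun r => p r • (X.D.t r.1 * X.D.c r.2)) p.support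
      refine this.trans (Finset.sum_congr rfl fun r _ => ?_)
      exact hsmul _ _
    rw [h1]
    refine hΦsum _ _ fun r hr => hΦsmul _ _ ((hp1 r).mono (by omega)) ?_
    obtain ⟨h2, h3, h4, h5⟩ := hp2 r hr
    exact hpr _ _ h2 h3 h5
  exact hmain k

/-- the coefficient of `v^(-α k)` of the `T_1`-coordinate of `c_k` -/
def nn1 (X : Base S W H) (α : W → ℕ) (k : W) : ℤ := (X.D.t.repr (X.D.c k) 1).coeff (-(α k : ℤ))

/-- the additive map `Θ` -/
def th (X : Base S W H) (α : W → ℕ) (m : ℕ) (e : ℤ) : H →+ ℤ :=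
  (Finsupp.liftAddHom fun k : W =>
    ({ toFun := fun p => if α k = m then p.coeff e * nn1 X α k else 0
       map_zero' := by simp
       map_add' := fun p q => by
        split_ifs
        · rw [AddMonoidAlgebra.coeff_add, Finsupp.add_apply, add_mul]
        · simp } : ℤ[T;T⁻¹] →+ ℤ)).comp X.b.repr.toLinearMap.toAddMonoidHom

theorem th_smul (X : Base S W H) (α : W → ℕ) (m : ℕ) (e : ℤ) (q : ℤ[T;T⁻¹]) (Z : H) :
    th X α m e (q • Z) = (X.b.repr Z).sum fun k p => if α k = m then (q * p).coeff e * nn1 X α k else 0 := by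
  have h : th X α m e (q • Z) =
      (X.b.repr (q • Z)).sum fun k p => if α k = m then p.coeff e * nn1 X α k else 0 := by
    unfold th
    rw [AddMonoidHom.comp_apply, Finsupp.liftAddHom_apply]
    rfl
  rw [h, map_smul, Finsupp.sum_smul_index']
  · rfl
  · intro i
    simp

theorem key (hGA : Pool.Agent.Helper15.AM.G_PA) (hH1 : H_1) (hB : A_B) (hS : A_S) (hK : A_K) (hO : A_O)
    (hAP : A_P) (hJ : A_J) (hC : A_C) (X : Base S W H) (P Q : Set S) (α : W → ℕ) (hPQ : P ⊆ Q)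
    (hP : PG X.D X.h P α) (hQ : PG X.D X.h Q α) (E : ℕ)
    (hE : ∀ w ∈ par X.cs Q, ∀ k, DegLE ((α k : ℤ) - α w + E) (X.b.repr (X.pr P (X.D.c w)) k))
    {w x g : W} (hw : w ∈ par X.cs Q) (hx : XR X.cs P x) (hg : g ∈ par X.cs P) (hwxg : w = x * g) {k : W}
    (hk : (X.b.repr (X.pr P (X.D.c w)) k).coeff ((α k : ℤ) - α w + E) ≠ 0) :
    ∃ z x' g', X.h w k⁻¹ z ≠ 0 ∧ z ∈ par X.cs Q ∧ α z = α w ∧ XR X.cs P x' ∧ g' ∈ par X.cs P ∧ z = x' * g' ∧
      α g' = α k ∧ (X.h w k⁻¹ z).coeff (α k) ≠ 0 ∧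
      ((X.b.repr (X.pr P (X.D.c z))).sum fun k' p => if α k' = α k then
        p.coeff ((α k : ℤ) - α z + E) * nn1 X α k' else 0) ≠ 0 := by
  classical
  obtain ⟨-, -, -, hS4, -, hS6, -, hadd, hsmul, hid, hS11, hS12, hS13⟩ := hS S W H X P
  obtain ⟨-, -, -, -, -, hSQ6, -⟩ := hS S W H X Q
  obtain ⟨hB1, -⟩ := hB S W H X
  obtain ⟨-, hdec, -⟩ := hGA S W X.M X.cs P
  obtain ⟨hO1, -⟩ := hO S W H X P Q
  obtain ⟨-, hP2, -, hP4, -⟩ := hAP S W H X P α hP
  obtain ⟨hJ1, hJ2, -⟩ := hJ S W H X P α hP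
  have hPQ' : par X.cs P ≤ par X.cs Q := Subgroup.closure_mono (Set.image_mono hPQ)
  have hkne : X.b.repr (X.pr P (X.D.c w)) k ≠ 0 := by
    intro h
    rw [h] at hk
    exact hk rfl
  have hkP : k ∈ par X.cs P := by
    rw [hwxg] at hkne
    exact ((pr_c hGA hH1 hS hK X P hx hg k).1 hkne).1
  have hkiP : k⁻¹ ∈ par X.cs P := inv_mem hkP
  have hαk : α k⁻¹ = α k := hP4 k hkP
  set m := α k with hm
  set e : ℤ := 2 * (m : ℤ) - α w + E with he
  -- (a)
  have ha : th X α m e (X.pr P (X.D.c w) * X.D.c k⁻¹) =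
      (X.b.repr (X.pr P (X.D.c w)) k).coeff ((m : ℤ) - α w + E) := by
    have h1 : X.pr P (X.D.c w) * X.D.c k⁻¹ = ∑ k' ∈ (X.b.repr (X.pr P (X.D.c w))).support,
        X.b.repr (X.pr P (X.D.c w)) k' • (X.D.c k' * X.D.c k⁻¹) := by
      conv_lhs => rw [← exp_c X (X.pr P (X.D.c w))]
      rw [Finsupp.sum, Finset.sum_mul]
      exact Finset.sum_congr rfl fun i _ => smul_mul_assoc _ _ _
    rw [h1, map_sum]
    have h2 : ∀ k' ∈ (X.b.repr (X.pr P (X.D.c w))).support,
        th X α m e (X.b.repr (X.pr P (X.D.c w)) k' • (X.D.c k' * X.D.c k⁻¹)) =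
          if k' = k then (X.b.repr (X.pr P (X.D.c w)) k').coeff ((m : ℤ) - α w + E) else 0 := by
      intro k' hk'
      have hk'P : k' ∈ par X.cs P := by
        have := Finsupp.mem_support_iff.1 hk'
        rw [hwxg] at this
        exact ((pr_c hGA hH1 hS hK X P hx hg k').1 this).1
      rw [th_smul, hB1]
      have h3 : ((X.h k' k⁻¹).sum fun z p => if α z = m then
          (X.b.repr (X.pr P (X.D.c w)) k' * p).coeff e * nn1 X α z else 0) =
          (X.b.repr (X.pr P (X.D.c w)) k').coeff ((m : ℤ) - α w + E) *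
            ((X.h k' k⁻¹).sum fun z p => p.coeff (α z) * (X.D.t.repr (X.D.c z) 1).coeff (-(α z : ℤ))) := by
        rw [Finsupp.sum, Finsupp.sum, Finset.mul_sum]
        refine Finset.sum_congr rfl fun z hz => ?_
        have hz0 := Finsupp.mem_support_iff.1 hz
        have hzP : z ∈ par X.cs P := hS6 k' hk'P k⁻¹ hkiP z hz0
        split_ifs with hzm
        · have h4 : DegLE (m : ℤ) (X.h k' k⁻¹ z) := by
            rw [← hzm]
            exact hP.deg k' hk'P k⁻¹ hkiP z hzP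
          have h5 : DegLE ((m : ℤ) - α w + E) (X.b.repr (X.pr P (X.D.c w)) k') := by
            refine (hE w hw k').mono ?_
            have := (hP.p4 k' hk'P k⁻¹ hkiP z hzP hz0).1
            omega
          have h6 := coeff_mul_top h5 h4
          rw [show (m : ℤ) - α w + E + m = e by rw [he]; ring] at h6
          rw [h6, hzm]
          unfold nn1
          rw [hzm]
          ring
        · have h4 : (X.h k' k⁻¹ z).coeff (α z) = 0 := by
            by_contra h5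
            have := (hP.p8 k' hk'P k⁻¹ hkiP z hzP h5).2
            exact hzm (by rw [← this, hαk])
          rw [h4]
          ring
      rw [h3]
      by_cases hkk : k' = k
      · rw [if_pos hkk, hJ1 k' hk'P k⁻¹ hkiP (by rw [hkk, mul_inv_cancel]), mul_one]
      · rw [if_neg hkk, hJ2 k' hk'P k⁻¹ hkiP (fun h => hkk (by rw [mul_inv_eq_one.1 h])), mul_zero]
    rw [Finset.sum_congr rfl h2, Finset.sum_ite_eq' _ k, if_pos (Finsupp.mem_support_iff.2 hkne)]
  -- (b)
  have hb : th X α m e (X.pr P (X.D.c w * X.D.c k⁻¹)) =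
      ∑ z ∈ (X.h w k⁻¹).support, th X α m e (X.h w k⁻¹ z • X.pr P (X.D.c z)) := by
    have h1 : X.pr P (X.D.c w * X.D.c k⁻¹) = ∑ z ∈ (X.h w k⁻¹).support, X.h w k⁻¹ z • X.pr P (X.D.c z) := by
      rw [X.isH w k⁻¹, Finsupp.sum]
      have := map_sum (prL hadd hsmul) (fun z => X.h w k⁻¹ z • X.D.c z) (X.h w k⁻¹).support
      exact this.trans (Finset.sum_congr rfl fun r _ => hsmul _ _)
    rw [h1, map_sum]
  have hab : X.pr P (X.D.c w * X.D.c k⁻¹) = X.pr P (X.D.c w) * X.D.c k⁻¹ :=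
    (hS13 (X.D.c w) (X.D.c k⁻¹) (hS4 k⁻¹ hkiP)).1
  rw [hab, ha] at hb
  have hne : ∑ z ∈ (X.h w k⁻¹).support, th X α m e (X.h w k⁻¹ z • X.pr P (X.D.c z)) ≠ 0 := by
    rw [← hb]
    exact hk
  obtain ⟨z, hz, hzne⟩ := Finset.exists_ne_zero_of_sum_ne_zero hne
  have hz0 := Finsupp.mem_support_iff.1 hz
  have hzQ : z ∈ par X.cs Q := hSQ6 w hw k⁻¹ (hPQ' hkiP) z hz0
  obtain ⟨x', g', hg', hx', hzx⟩ := hdec z
  have hXR1 : XR X.cs P 1 := by
    intro i _
    rw [one_mul, X.cs.length_one, X.cs.length_simple]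
  have hle : X.leL P g' k⁻¹ := by
    refine hO1 1 k⁻¹ x' g' hXR1 hkiP hx' hg' ?_
    rw [one_mul, ← hzx]
    exact Relation.ReflTransGen.single ⟨w, hw, hz0⟩
  have hmg : m ≤ α g' := by
    rw [← hαk]
    exact (hP2 g' k⁻¹ hkiP hle).2
  rw [th_smul] at hzne
  -- a term that does not vanish
  obtain ⟨k₁, hk₁, hk₁ne⟩ := Finset.exists_ne_zero_of_sum_ne_zero hzne
  have hk₁0 := Finsupp.mem_support_iff.1 hk₁
  have hsup : ∀ k₂, X.b.repr (X.pr P (X.D.c z)) k₂ ≠ 0 → k₂ ∈ par X.cs P ∧ α g' ≤ α k₂ := by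
    intro k₂ h
    rw [hzx] at h
    have h1 := (pr_c hGA hH1 hS hK X P hx' hg' k₂).1 h
    exact ⟨h1.1, (hP2 k₂ g' hg' h1.2).2⟩
  have hk₁m : α k₁ = m := by
    by_contra h
    simp only [if_neg h] at hk₁ne
    exact hk₁ne rfl
  have hg'm : α g' = m := le_antisymm (hk₁m ▸ (hsup k₁ hk₁0).2) hmg
  have hdeg : DegLE (m : ℤ) (X.h w k⁻¹ z) := by
    rw [hwxg, hzx, ← hg'm]
    exact ((hC S W H X P α hP).1 x g k⁻¹ x' g' hx hg hkiP hx' hg').1
  have hαz : α w ≤ α z := (hQ.p4 w hw k⁻¹ (hPQ' hkiP) z hzQ hz0).1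
  have hpd : ∀ k₂, α k₂ = m → DegLE ((m : ℤ) - α z + E) (X.b.repr (X.pr P (X.D.c z)) k₂) := by
    intro k₂ h
    rw [← h]
    exact hE z hzQ k₂
  have hαzw : α z = α w := by
    by_contra h
    have h1 : α w < α z := by omega
    simp only [if_pos hk₁m] at hk₁ne
    refine hk₁ne ?_
    rw [(hdeg.mul (hpd k₁ hk₁m)) e (by omega), zero_mul]
  have hfac : ((X.b.repr (X.pr P (X.D.c z))).sum fun k' p => if α k' = m then
      (X.h w k⁻¹ z * p).coeff e * nn1 X α k' else 0) = (X.h w k⁻¹ z).coeff m *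
      ((X.b.repr (X.pr P (X.D.c z))).sum fun k' p => if α k' = m then
        p.coeff ((m : ℤ) - α z + E) * nn1 X α k' else 0) := by
    rw [Finsupp.sum, Finsupp.sum, Finset.mul_sum]
    refine Finset.sum_congr rfl fun k' _ => ?_
    split_ifs with h
    · have h1 := coeff_mul_top hdeg (hpd k' h)
      rw [show (m : ℤ) + ((m : ℤ) - α z + E) = e by rw [he, hαzw]; ring] at h1
      rw [h1]
      ring
    · ring
  rw [hfac] at hzne
  exact ⟨z, x', g', hz0, hzQ, hαzw, hx', hg', hzx, hg'm, left_ne_zero_of_mul hzne, right_ne_zero_of_mul hzne⟩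

/-- the descent step and the bound -/
theorem bound (hGA : Pool.Agent.Helper15.AM.G_PA) (hH1 : H_1) (hB : A_B) (hS : A_S) (hK : A_K) (hO : A_O)
    (hAP : A_P) (hJ : A_J) (hC : A_C) (X : Base S W H) (P Q : Set S) (α : W → ℕ) (hPQ : P ⊆ Q)
    (hP : PG X.D X.h P α) (hQ : PG X.D X.h Q α) :
    ∀ w ∈ par X.cs Q, ∀ k, DegLE ((α k : ℤ) - α w) (X.b.repr (X.pr P (X.D.c w)) k) := by
  classical
  obtain ⟨-, -, -, hS4, -, hS6, -, hadd, hsmul, hid, hS11, hS12, hS13⟩ := hS S W H X P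
  obtain ⟨-, hdec, -⟩ := hGA S W X.M X.cs P
  obtain ⟨-, hP2, -, hP4, -⟩ := hAP S W H X P α hP
  obtain ⟨⟨N, hN⟩, -⟩ := hAP S W H X Q α hQ
  have hPQ' : par X.cs P ≤ par X.cs Q := Subgroup.closure_mono (Set.image_mono hPQ)
  have hsup : ∀ z k, X.b.repr (X.pr P (X.D.c z)) k ≠ 0 → k ∈ par X.cs P := by
    intro z k h
    obtain ⟨x, g, hg, hx, rfl⟩ := hdec z
    exact ((pr_c hGA hH1 hS hK X P hx hg k).1 h).1
  -- the step
  have step : ∀ E : ℕ, 0 < E →
      (∀ w ∈ par X.cs Q, ∀ k, DegLE ((α k : ℤ) - α w + E) (X.b.repr (X.pr P (X.D.c w)) k)) →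
      ∀ w ∈ par X.cs Q, ∀ k, DegLE ((α k : ℤ) - α w + (E - 1 : ℕ)) (X.b.repr (X.pr P (X.D.c w)) k) := by
    intro E hE0 hE
    have main : ∀ d : ℕ, ∀ w ∈ par X.cs Q, ∀ k ∈ par X.cs P, N - α k ≤ d →
        (X.b.repr (X.pr P (X.D.c w)) k).coeff ((α k : ℤ) - α w + E) = 0 := by
      intro d
      induction d using Nat.strong_induction_on with
      | _ d ih =>
        intro w hw k hkP hd
        by_contra hne
        obtain ⟨x, g, hg, hx, hwxg⟩ := hdec w
        obtain ⟨z, x', g', hz0, hzQ, hαz, hx', hg', hzx, hg'm, -, hsum⟩ :=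
          key hGA hH1 hB hS hK hO hAP hJ hC X P Q α hPQ hP hQ E hE hw hx hg hwxg hne
        refine hsum ?_
        have hbig : ∀ k₂ ∈ par X.cs P, α k < α k₂ →
            (X.b.repr (X.pr P (X.D.c z)) k₂).coeff ((α k₂ : ℤ) - α z + E) = 0 := by
          intro k₂ hk₂ hlt
          have h1 : α k₂ ≤ N := hN k₂ (hPQ' hk₂)
          have h2 : N - α k₂ < d := by omega
          exact ih (N - α k₂) h2 z hzQ k₂ hk₂ le_rfl
        have h1 : (X.D.t.repr (X.D.c z) 1).coeff ((E : ℤ) - α z) = 0 := hQ.p1 z hzQ _ (by omega)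
        rw [← hS12 (X.D.c z) 1 (one_mem _)] at h1
        have h2 : X.D.t.repr (X.pr P (X.D.c z)) 1 = ∑ k' ∈ (X.b.repr (X.pr P (X.D.c z))).support,
            X.b.repr (X.pr P (X.D.c z)) k' * X.D.t.repr (X.D.c k') 1 := by
          conv_lhs => rw [← exp_c X (X.pr P (X.D.c z))]
          rw [Finsupp.sum, map_sum, Finsupp.finsetSum_apply]
          refine Finset.sum_congr rfl fun i _ => ?_
          rw [map_smul, Finsupp.smul_apply, smul_eq_mul]
        rw [h2, coeff_sum] at h1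
        refine Eq.trans ?_ h1
        refine Finset.sum_congr rfl fun k' hk' => ?_
        have hk'0 := Finsupp.mem_support_iff.1 hk'
        have hk'P := hsup z k' hk'0
        have h3 := coeff_mul_top (hE z hzQ k') (hP.p1 k' hk'P)
        rw [show (α k' : ℤ) - α z + E + -(α k' : ℤ) = (E : ℤ) - α z by ring] at h3
        rw [h3]
        have hle : α k ≤ α k' := by
          rw [hzx] at hk'0
          have h4 := (pr_c hGA hH1 hS hK X P hx' hg' k').1 hk'0
          rw [← hg'm]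
          exact (hP2 k' g' hg' h4.2).2
        beta_reduce
        split_ifs with h
        · rw [h]
          unfold nn1
          rw [h]
        · rw [hbig k' hk'P (by omega), zero_mul]
    intro w hw k
    by_cases h0 : X.b.repr (X.pr P (X.D.c w)) k = 0
    · rw [h0]
      exact DegLE.zero _
    · have h1 := degLE_sub_one (hE w hw k) (main _ w hw k (hsup w k h0) le_rfl)
      refine h1.mono ?_
      omega
  -- descending induction
  have all : ∀ E : ℕ,
      (∀ w ∈ par X.cs Q, ∀ k, DegLE ((α k : ℤ) - α w + E) (X.b.repr (X.pr P (X.D.c w)) k)) →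
      ∀ w ∈ par X.cs Q, ∀ k, DegLE ((α k : ℤ) - α w) (X.b.repr (X.pr P (X.D.c w)) k) := by
    intro E
    induction E with
    | zero =>
      intro h w hw k
      simpa using h w hw k
    | succ E ih =>
      intro h
      refine ih ?_
      have := step (E + 1) (Nat.succ_pos E) h
      simpa using this
  refine all N fun w hw k => ?_
  obtain ⟨x, g, hg, hx, hwxg⟩ := hdec w
  have h1 : α w ≤ N := hN w hw
  rw [hwxg]
  refine (pr_c hGA hH1 hS hK X P hx hg k).2.mono ?_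
  rw [← hwxg]
  omega

/-- AM-A1 -/
theorem h_a_1 (hGA : Pool.Agent.Helper15.AM.G_PA) (hH1 : H_1) (hB : A_B) (hS : A_S) (hM : A_M) (hK : A_K)
    (hO : A_O) (hAP : A_P) (hJ : A_J) (hC : A_C) : A_1 := by
  classical
  intro S W H _ _ _ X P Q α hPQ hP hQ w hw k
  have hPQ' : par X.cs P ≤ par X.cs Q := Subgroup.closure_mono (Set.image_mono hPQ)
  obtain ⟨-, hdec, -⟩ := hGA S W X.M X.cs P
  have hbd := bound hGA hH1 hB hS hK hO hAP hJ hC X P Q α hPQ hP hQ
  have hsup : ∀ z k, X.b.repr (X.pr P (X.D.c z)) k ≠ 0 → k ∈ par X.cs P := by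
    intro z k h
    obtain ⟨x, g, hg, hx, rfl⟩ := hdec z
    exact ((pr_c hGA hH1 hS hK X P hx hg k).1 h).1
  -- the first part of the equality case
  have hL : ∀ w ∈ par X.cs Q, ∀ k, (X.b.repr (X.pr P (X.D.c w)) k).coeff ((α k : ℤ) - α w) ≠ 0 →
      ∀ x g, XR X.cs P x → g ∈ par X.cs P → w = x * g → X.eqL P k g := by
    intro w hw k hk x g hx hg hwxg
    have hk' : (X.b.repr (X.pr P (X.D.c w)) k).coeff ((α k : ℤ) - α w + (0 : ℕ)) ≠ 0 := by simpa using hk
    obtain ⟨z, x', g', hz0, hzQ, hαz, hx', hg', hzx, hg'm, hc, -⟩ :=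
      key hGA hH1 hB hS hK hO hAP hJ hC X P Q α hPQ hP hQ 0 (fun w hw k => by simpa using hbd w hw k)
        hw hx hg hwxg hk'
    have hkP : k ∈ par X.cs P := hsup w k fun h => by rw [h] at hk; exact hk rfl
    have hkiP : k⁻¹ ∈ par X.cs P := inv_mem hkP
    obtain ⟨-, h2, h3⟩ := (hC S W H X P α hP).1 x g k⁻¹ x' g' hx hg hkiP hx' hg'
    rw [← hwxg, ← hzx, hg'm] at h2 h3
    have hxx : x' = x := by
      by_contra h
      exact hc (h3 h)
    rw [h2 hxx, ← hg'm] at hc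
    obtain ⟨-, -, -, h4, -⟩ := hJ S W H X P α hP
    have h5 := (h4 g hg k⁻¹ hkiP g' hg' hc).2.2.2
    rw [inv_inv] at h5
    exact ⟨h5.2, h5.1⟩
  refine ⟨hsup w k, hbd w hw k, fun hk => ⟨hL w hw k hk, ?_⟩⟩
  intro g y hy hg hwgy
  obtain ⟨⟨F, -, -, hFc, hFt, hFb⟩, -, hXL, -, hLR, -⟩ := hM S W H X
  have hkP : k ∈ par X.cs P := hsup w k fun h => by rw [h] at hk; exact hk rfl
  obtain ⟨-, -, -, hαP, -⟩ := hAP S W H X P α hP
  obtain ⟨-, -, -, hαQ, -⟩ := hAP S W H X Q α hQ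
  obtain ⟨-, -, -, -, -, -, -, -, -, -, hS11, hS12, -⟩ := hS S W H X P
  have hcom : X.pr P (F (X.D.c w)) = F (X.pr P (X.D.c w)) := by
    apply X.D.t.repr.injective
    ext1 z
    rw [hFt]
    by_cases hz : z ∈ par X.cs P
    · rw [hS12 _ z hz, hFt, hS12 _ z⁻¹ (inv_mem hz)]
    · have h1 : X.D.t.repr (X.pr P (F (X.D.c w))) z = 0 := by
        by_contra h
        exact hz (hS11 _ z h).1
      have h2 : X.D.t.repr (X.pr P (X.D.c w)) z⁻¹ = 0 := by
        by_contra h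
        exact hz (by simpa using inv_mem (hS11 _ z⁻¹ h).1)
      rw [h1, h2]
  have hpi : X.b.repr (X.pr P (X.D.c w⁻¹)) k⁻¹ = X.b.repr (X.pr P (X.D.c w)) k := by
    rw [← hFc, hcom, hFb, inv_inv]
  have h1 : (X.b.repr (X.pr P (X.D.c w⁻¹)) k⁻¹).coeff ((α k⁻¹ : ℤ) - α w⁻¹) ≠ 0 := by
    rw [hpi, hαP k hkP, hαQ w hw]
    exact hk
  have h2 := hL w⁻¹ (inv_mem hw) k⁻¹ h1 y⁻¹ g⁻¹ ((hXL P y).1 hy) (inv_mem hg) (by rw [hwgy, mul_inv_rev])
  exact ⟨(hLR P k g).2 h2.1, (hLR P g k).2 h2.2⟩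

end Pool.Agent.Helper41.AM
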